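import Pool.Agent.H986R3.SOAFinal
import Pool.Agent.Helper180.ArithDef

set_option autoImplicit false

namespace Pool.Agent.W697.SOA

open Pool.Agent.H986R3.SOA Function
open Pool.Agent.Helper180.ArithDef

/-- De Bruijn formulas of arithmetic. -/
inductive F : Type
  | add : ℕ → ℕ → ℕ → F
  | mul : ℕ → ℕ → ℕ → F
  | bot : F
  | imp : F → F → F
  | all : F → F

/-- Satisfaction of a de Bruijn formula. -/
def F.sat : F → (ℕ → ℕ) → Prop
  | .add i j k, w => w i + w j = w k
  | .mul i j k, w => w i * w j = w k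
  | .bot, _ => False
  | .imp f g, w => f.sat w → g.sat w
  | .all f, w => ∀ a, f.sat (cns a w)

/-- Renaming. -/
def F.ren : F → (ℕ → ℕ) → F
  | .add i j k, ρ => .add (ρ i) (ρ j) (ρ k)
  | .mul i j k, ρ => .mul (ρ i) (ρ j) (ρ k)
  | .bot, _ => .bot
  | .imp f g, ρ => .imp (f.ren ρ) (g.ren ρ)
  | .all f, ρ => .all (f.ren (cns 0 (fun n => ρ n + 1)))

theorem F.sat_ren (f : F) : ∀ (ρ : ℕ → ℕ) (w : ℕ → ℕ), (f.ren ρ).sat w ↔ f.sat (fun i => w (ρ i)) := by
  induction f with
  | add i j k => intro ρ w; exact Iff.rfl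
  | mul i j k => intro ρ w; exact Iff.rfl
  | bot => intro ρ w; exact Iff.rfl
  | imp f g hf hg => intro ρ w; simp only [F.ren, F.sat, hf, hg]
  | all f hf =>
    intro ρ w
    simp only [F.ren, F.sat, hf]
    refine forall_congr' fun a => ?_
    have : (fun i => cns a w (cns 0 (fun n => ρ n + 1) i)) = cns a (fun i => w (ρ i)) := by
      funext i; cases i <;> rfl
    rw [this]

/-- The class of predicates defined by de Bruijn formulas. -/
def DD (R : (ℕ → ℕ) → Prop) : Prop := ∃ f : F, ∀ w, f.sat w ↔ R w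

theorem dc : DC DD where
  add := ⟨.add 0 1 2, fun _ => Iff.rfl⟩
  mul := ⟨.mul 0 1 2, fun _ => Iff.rfl⟩
  bot := ⟨.bot, fun _ => Iff.rfl⟩
  imp := by
    rintro R S ⟨f, hf⟩ ⟨g, hg⟩
    exact ⟨.imp f g, fun w => by simp only [F.sat, hf, hg]⟩
  all := by
    rintro R ⟨f, hf⟩
    exact ⟨.all f, fun w => by simp only [F.sat, hf]⟩
  ren := by
    rintro R ρ ⟨f, hf⟩
    exact ⟨f.ren ρ, fun w => by rw [F.sat_ren, hf]⟩

/-- Translation to formulas of `L_2`; `σ` gives the names of the free variables, the new bound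
variables get the names `k, k + 1, ...`. -/
def F.tr : F → (ℕ → ℕ) → ℕ → Fm
  | .add i j l, σ, _ => .eq (.add (.var (σ i)) (.var (σ j))) (.var (σ l))
  | .mul i j l, σ, _ => .eq (.mul (.var (σ i)) (.var (σ j))) (.var (σ l))
  | .bot, σ, _ => .neg (.eq (.var (σ 0)) (.var (σ 0)))
  | .imp f g, σ, k => .imp (f.tr σ k) (g.tr σ k)
  | .all f, σ, k => .all k (f.tr (cns k σ) (k + 1))

theorem F.tr_arith (f : F) : ∀ (σ : ℕ → ℕ) (k : ℕ), (f.tr σ k).Arithmetical := by
  induction f with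
  | add i j k => intro σ k; trivial
  | mul i j k => intro σ k; trivial
  | bot => intro σ k; trivial
  | imp f g hf hg => intro σ k; exact ⟨hf σ k, hg σ k⟩
  | all f hf => intro σ k; exact hf _ _

theorem F.tr_fvS (f : F) : ∀ (σ : ℕ → ℕ) (k : ℕ), (f.tr σ k).fvS = ∅ := by
  induction f with
  | add i j k => intro σ k; rfl
  | mul i j k => intro σ k; rfl
  | bot => intro σ k; rfl
  | imp f g hf hg =>
    intro σ k
    simp only [F.tr, Fm.imp, Fm.fvS, hf, hg, Set.union_self]
  | all f hf => intro σ k; exact hf _ _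

theorem F.tr_fvN (f : F) : ∀ (σ : ℕ → ℕ) (k : ℕ), (f.tr σ k).fvN ⊆ Set.range σ := by
  induction f with
  | add i j k =>
    intro σ k x hx
    simp only [F.tr, Fm.fvN, Tm.fv, Set.mem_union, Set.mem_singleton_iff] at hx
    rcases hx with (rfl | rfl) | rfl <;> exact ⟨_, rfl⟩
  | mul i j k =>
    intro σ k x hx
    simp only [F.tr, Fm.fvN, Tm.fv, Set.mem_union, Set.mem_singleton_iff] at hx
    rcases hx with (rfl | rfl) | rfl <;> exact ⟨_, rfl⟩
  | bot =>
    intro σ k x hx
    simp only [F.tr, Fm.fvN, Tm.fv, Set.mem_union, Set.mem_singleton_iff] at hx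
    rcases hx with rfl | rfl <;> exact ⟨_, rfl⟩
  | imp f g hf hg =>
    intro σ k x hx
    rcases hx with hx | hx
    · exact hf σ k hx
    · exact hg σ k hx
  | all f hf =>
    intro σ k x hx
    obtain ⟨i, hi⟩ := hf _ _ hx.1
    cases i with
    | zero => exact absurd hi.symm hx.2
    | succ i => exact ⟨i, hi⟩

theorem F.sat_tr (f : F) : ∀ (σ : ℕ → ℕ) (k : ℕ) (v : ℕ → ℕ) (V : ℕ → Set ℕ), (∀ i, σ i < k) →
    (Sat std v V (f.tr σ k) ↔ f.sat (fun i => v (σ i))) := by
  induction f with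
  | add i j k => intro σ k v V _; exact Iff.rfl
  | mul i j k => intro σ k v V _; exact Iff.rfl
  | bot =>
    intro σ k v V _
    simp [F.tr, F.sat, Sat]
  | imp f g hf hg =>
    intro σ k v V hσ
    simp only [F.tr, F.sat, Sat_imp]
    rw [hf σ k v V hσ, hg σ k v V hσ]
  | all f hf =>
    intro σ k v V hσ
    simp only [F.tr, F.sat, Sat]
    refine forall_congr' fun a => ?_
    have h1 : (Sat std (update (β := fun _ => ℕ) v k a) V (f.tr (cns k σ) (k + 1)) ↔
        f.sat (fun i => update (β := fun _ => ℕ) v k a (cns k σ i))) := by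
      refine hf (cns k σ) (k + 1) (update (β := fun _ => ℕ) v k a) V ?_
      intro i
      cases i with
      | zero => simp
      | succ i => exact Nat.lt_succ_of_lt (hσ i)
    have h2 : (fun i => update (β := fun _ => ℕ) v k a (cns k σ i)) = cns a (fun i => v (σ i)) := by
      funext i
      cases i with
      | zero => simp
      | succ i =>
        simp only [cns_succ]
        exact update_of_ne (Nat.ne_of_lt (hσ i)) _ _
    rw [h2] at h1
    exact h1

/-- Predicates in the class `DD` depending on the variable `0` are defined by arithmetical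
formulas of `L_2`. -/
theorem exists_fm {P : ℕ → Prop} (h : DD (fun w => P (w 0))) :
    ∃ α : Fm, α.Arithmetical ∧ α.FreeIn {0} ∧ ∀ n : ℕ, SatN n 0 0 α ↔ P n := by
  obtain ⟨f, hf⟩ := h
  refine ⟨f.tr (fun _ => 0) 1, f.tr_arith _ _, ⟨?_, f.tr_fvS _ _⟩, fun n => ?_⟩
  · intro x hx
    obtain ⟨i, hi⟩ := f.tr_fvN _ _ hx
    exact hi.symm
  · have h1 := f.sat_tr (fun _ => 0) 1 (asg (A := ℕ) n 0 0) (fun _ => (∅ : Set ℕ)) (by simp)
    rw [hf] at h1
    exact h1

theorem tconst (c : ℕ) : DT DD (fun _ => c) := by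
  induction c with
  | zero => exact dc.tzero
  | succ c ih => exact dc.tadd ih dc.tone

theorem tpr {A B : (ℕ → ℕ) → ℕ} (hA : DT DD A) (hB : DT DD B) :
    DT DD (fun w => pr (A w) (B w)) :=
  dc.tadd (dc.tmul (dc.tadd hA hB) (dc.tadd hA hB)) hA

/-- Finite sequences of numbers are values of the beta function. -/
theorem beta_exists (s : ℕ → ℕ) (n : ℕ) : ∃ c, ∀ k, k ≤ n → Nat.beta c k = s k := by
  let l := (List.range (n + 1)).map s
  have hl : l.length = n + 1 := by simp [l]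
  refine ⟨Nat.unbeta l, fun k hk => ?_⟩
  have := Nat.beta_unbeta_coe l ⟨k, by omega⟩
  simp only at this
  rw [this]
  simp [l]

/-- Predicates defined by recursion on the values below the argument. -/
theorem drec {P : ℕ → ℕ → Prop} (Ψ : ℕ → ℕ → (ℕ → Prop) → Prop)
    (hP : ∀ x n, P x n ↔ Ψ x n (P x))
    (hloc : ∀ x n S S', (∀ m < n, S m ↔ S' m) → (Ψ x n S ↔ Ψ x n S'))
    (hD : DD (fun w => Ψ (w 0) (w 1) (fun m => Nat.beta (w 2) m = 1))) :
    DD (fun w => P (w 0) (w 1)) := by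
  have key : ∀ x n, P x n ↔ ∃ c, (∀ k, k ≤ n → (Nat.beta c k = 1 ↔
      Ψ x k (fun m => Nat.beta c m = 1))) ∧ Nat.beta c n = 1 := by
    classical
    intro x n
    constructor
    · intro h
      obtain ⟨c, hc⟩ := beta_exists (fun k => if P x k then 1 else 0) n
      have h1 : ∀ k, k ≤ n → (Nat.beta c k = 1 ↔ P x k) := by
        intro k hk
        rw [hc k hk]
        simp
      refine ⟨c, fun k hk => ?_, (h1 n le_rfl).mpr h⟩
      rw [h1 k hk, hP x k]
      exact hloc x k _ _ (fun m hm => (h1 m (by omega)).symm)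
    · rintro ⟨c, h1, h2⟩
      have h3 : ∀ k, k ≤ n → (Nat.beta c k = 1 ↔ P x k) := by
        intro k
        induction k using Nat.strong_induction_on with
        | _ k ih =>
          intro hk
          rw [h1 k hk, hP x k]
          exact hloc x k _ _ (fun m hm => ih m hm (by omega))
      exact (h3 n le_rfl).mp h2
  refine dc.iff (fun w => (key (w 0) (w 1)).symm) ?_
  refine dc.ex' (S := fun c w => (∀ k, k ≤ w 1 → (Nat.beta c k = 1 ↔
      Ψ (w 0) k (fun m => Nat.beta c m = 1))) ∧ Nat.beta c (w 1) = 1) ?_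
  refine dc.and ?_ (dc.eq (dc.tbeta (dc.tvar 0) (dc.tvar 2)) dc.tone)
  refine dc.all' (S := fun k w => k ≤ w 2 → (Nat.beta (w 0) k = 1 ↔
      Ψ (w 1) k (fun m => Nat.beta (w 0) m = 1))) ?_
  refine dc.imp (dc.le (dc.tvar 0) (dc.tvar 3)) ?_
  have e1 : DD (fun w => Nat.beta (w 1) (w 0) = 1) :=
    dc.eq (dc.tbeta (dc.tvar 1) (dc.tvar 0)) dc.tone
  have e2 : DD (fun w => Ψ (w 2) (w 0) (fun m => Nat.beta (w 1) m = 1)) :=
    dc.ren (fun n => match n with | 0 => 2 | 1 => 0 | _ => 1) hD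
  exact dc.iff (fun w => by constructor
                            · rintro ⟨h1, h2⟩; exact ⟨h1, h2⟩
                            · rintro h; exact ⟨h.1, h.2⟩) (dc.and (dc.imp e1 e2) (dc.imp e2 e1))

/-- Functions defined by primitive recursion. -/
theorem trec {g : ℕ → ℕ → ℕ} (hg : DT DD (fun w => g (w 0) (w 1))) (f : ℕ → ℕ → ℕ)
    (h0 : ∀ a, f 0 a = a) (hs : ∀ k a, f (k + 1) a = g k (f k a)) :
    DT DD (fun w => f (w 0) (w 1)) := by
  have key : ∀ y k a, y = f k a ↔ ∃ c, Nat.beta c 0 = a ∧ Nat.beta c k = y ∧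
      ∀ i, i < k → Nat.beta c (i + 1) = g i (Nat.beta c i) := by
    intro y k a
    constructor
    · rintro rfl
      obtain ⟨c, hc⟩ := beta_exists (fun i => f i a) k
      refine ⟨c, ?_, hc k le_rfl, fun i hi => ?_⟩
      · rw [hc 0 (Nat.zero_le _), h0]
      · rw [hc (i + 1) hi, hc i (by omega), hs]
    · rintro ⟨c, h1, h2, h3⟩
      have h4 : ∀ i, i ≤ k → Nat.beta c i = f i a := by
        intro i
        induction i with
        | zero => intro _; rw [h0, h1]
        | succ i ih => intro hi; rw [h3 i hi, ih (by omega), hs]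
      rw [← h2, h4 k le_rfl]
  refine dc.iff (fun w => (key (w 0) (w 1) (w 2)).symm) ?_
  refine dc.ex' (S := fun c w => Nat.beta c 0 = w 2 ∧ Nat.beta c (w 1) = w 0 ∧
      ∀ i, i < w 1 → Nat.beta c (i + 1) = g i (Nat.beta c i)) ?_
  refine dc.and (dc.eq (dc.tbeta (dc.tvar 0) dc.tzero) (dc.tvar 3))
    (dc.and (dc.eq (dc.tbeta (dc.tvar 0) (dc.tvar 2)) (dc.tvar 1)) ?_)
  refine dc.all' (S := fun i w => i < w 2 → Nat.beta (w 0) (i + 1) = g i (Nat.beta (w 0) i)) ?_
  refine dc.imp (dc.lt (dc.tvar 0) (dc.tvar 3)) ?_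
  refine dc.eq (dc.tbeta (dc.tvar 1) (dc.tadd (dc.tvar 0) dc.tone)) ?_
  refine dc.app3 (R := fun a b y => y = g a b) ?_ (dc.tren (fun n => n + 1) (dc.tvar 0))
    (dc.tren (fun n => n + 1) (dc.tbeta (dc.tvar 1) (dc.tvar 0))) (dc.tvar 0)
  exact dc.ren (fun n => match n with | 0 => 2 | 1 => 0 | _ => 1) hg

end Pool.Agent.W697.SOA
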