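import Pool.Agent.W697.SOA.Main
import Pool.Agent.W697.SOA.Defin

set_option autoImplicit false

namespace Pool.Agent.W697.SOA

open Pool.Agent.H986R3.SOA Function
open Pool.Agent.Helper180.ArithDef

/-- The instance of the axiom of choice for `φ(x_n, X)`: if for all `x_n` there is `X` with
`φ(x_n, X)`, then there is `Y` such that for all `x_n` the section `X = {x_m : (x_n, x_m) ∈ Y}`
exists and satisfies `φ(x_n, X)`. -/
def acAx (φ : Fm) (n m X Y : ℕ) : Fm :=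
  .imp (.all n (.exS X φ)) (.exS Y (.all n (.exS X
    (.and (.all m (.iff (.mem (.var m) X) (.mem (prT (.var n) (.var m)) Y))) φ))))

/-- The axioms of `Sigma^1_1-AC_0`: the axioms of `ACA_0` and the choice axioms for `Sigma^1_1`
formulas (in which `Y` is not free). -/
inductive Sigma11AC0 : Fm → Prop
  | aca (φ : Fm) : ACA0 φ → Sigma11AC0 φ
  | choice (φ : Fm) (n m X Y : ℕ) : φ.IsSigma11 → m ≠ n → Y ≠ X → Y ∉ φ.fvS →
      Sigma11AC0 (acAx φ n m X Y)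

/-- Universal closure with respect to all variables with index `< k`. -/
def cl : ℕ → Fm → Fm
  | 0, ψ => ψ
  | k + 1, ψ => .all k (.allS k (cl k ψ))

/-- The set of the universal closures of the axioms of `Sigma^1_1-AC_0`. -/
def TAC : Set Fm := {χ | ∃ ψ, Sigma11AC0 ψ ∧ χ = cl (ψ.code + 1) ψ}

theorem cl_fvN (k : ℕ) (ψ : Fm) : ∀ x ∈ (cl k ψ).fvN, x ∈ ψ.fvN ∧ k ≤ x := by
  induction k with
  | zero => intro x hx; exact ⟨hx, Nat.zero_le _⟩
  | succ k ih =>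
    intro x hx
    obtain ⟨h1, h2⟩ := ih x hx.1
    have h3 : x ≠ k := hx.2
    exact ⟨h1, by omega⟩

theorem cl_fvS (k : ℕ) (ψ : Fm) : ∀ x ∈ (cl k ψ).fvS, x ∈ ψ.fvS ∧ k ≤ x := by
  induction k with
  | zero => intro x hx; exact ⟨hx, Nat.zero_le _⟩
  | succ k ih =>
    intro x hx
    obtain ⟨h1, h2⟩ := ih x hx.1
    have h3 : x ≠ k := hx.2
    exact ⟨h1, by omega⟩

theorem le_pr_left (a b : ℕ) : a ≤ pr a b := by unfold pr; omega

theorem le_pr_right (a b : ℕ) : b ≤ pr a b := by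
  unfold pr
  have : a + b ≤ (a + b) * (a + b) := Nat.le_mul_self _
  omega

theorem lt_pr_right (a b : ℕ) (ha : a ≠ 0) : b < pr a b := by
  unfold pr
  have : a + b ≤ (a + b) * (a + b) := Nat.le_mul_self _
  omega

theorem Tm.fv_le (t : Tm) : ∀ x ∈ t.fv, x ≤ t.code := by
  induction t with
  | var i =>
    intro x hx
    have : x = i := hx
    rw [this]
    exact le_pr_right _ _
  | zero => intro x hx; exact hx.elim
  | one => intro x hx; exact hx.elim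
  | add s t hs ht =>
    intro x hx
    have h1 := le_pr_left s.code t.code
    have h2 := le_pr_right s.code t.code
    have h3 : pr s.code t.code ≤ (Tm.add s t).code := le_pr_right 3 _
    rcases hx with hx | hx
    · have := hs x hx; omega
    · have := ht x hx; omega
  | mul s t hs ht =>
    intro x hx
    have h1 := le_pr_left s.code t.code
    have h2 := le_pr_right s.code t.code
    have h3 : pr s.code t.code ≤ (Tm.mul s t).code := le_pr_right 4 _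
    rcases hx with hx | hx
    · have := hs x hx; omega
    · have := ht x hx; omega

theorem Fm.fvN_le (φ : Fm) : ∀ x ∈ φ.fvN, x ≤ φ.code := by
  induction φ with
  | eq s t =>
    intro x hx
    have h1 := le_pr_left s.code t.code
    have h2 := le_pr_right s.code t.code
    have h3 : pr s.code t.code ≤ (Fm.eq s t).code := le_pr_right _ _
    rcases hx with hx | hx
    · have := Tm.fv_le s x hx; omega
    · have := Tm.fv_le t x hx; omega
  | lt s t =>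
    intro x hx
    have h1 := le_pr_left s.code t.code
    have h2 := le_pr_right s.code t.code
    have h3 : pr s.code t.code ≤ (Fm.lt s t).code := le_pr_right _ _
    rcases hx with hx | hx
    · have := Tm.fv_le s x hx; omega
    · have := Tm.fv_le t x hx; omega
  | mem t i =>
    intro x hx
    have h1 := le_pr_left t.code i
    have h3 : pr t.code i ≤ (Fm.mem t i).code := le_pr_right _ _
    have := Tm.fv_le t x hx; omega
  | neg φ ih =>
    intro x hx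
    have h3 : φ.code ≤ (Fm.neg φ).code := le_pr_right _ _
    have := ih x hx; omega
  | and φ ψ ih1 ih2 =>
    intro x hx
    have h1 := le_pr_left φ.code ψ.code
    have h2 := le_pr_right φ.code ψ.code
    have h3 : pr φ.code ψ.code ≤ (Fm.and φ ψ).code := le_pr_right _ _
    rcases hx with hx | hx
    · have := ih1 x hx; omega
    · have := ih2 x hx; omega
  | all i φ ih =>
    intro x hx
    have h2 := le_pr_right i φ.code
    have h3 : pr i φ.code ≤ (Fm.all i φ).code := le_pr_right _ _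
    have := ih x hx.1; omega
  | allS i φ ih =>
    intro x hx
    have h2 := le_pr_right i φ.code
    have h3 : pr i φ.code ≤ (Fm.allS i φ).code := le_pr_right _ _
    have := ih x hx; omega

theorem Fm.fvS_le (φ : Fm) : ∀ x ∈ φ.fvS, x ≤ φ.code := by
  induction φ with
  | eq s t => intro x hx; exact hx.elim
  | lt s t => intro x hx; exact hx.elim
  | mem t i =>
    intro x hx
    have h1 := le_pr_right t.code i
    have h3 : pr t.code i ≤ (Fm.mem t i).code := le_pr_right _ _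
    have : x = i := hx
    omega
  | neg φ ih =>
    intro x hx
    have h3 : φ.code ≤ (Fm.neg φ).code := le_pr_right _ _
    have := ih x hx; omega
  | and φ ψ ih1 ih2 =>
    intro x hx
    have h1 := le_pr_left φ.code ψ.code
    have h2 := le_pr_right φ.code ψ.code
    have h3 : pr φ.code ψ.code ≤ (Fm.and φ ψ).code := le_pr_right _ _
    rcases hx with hx | hx
    · have := ih1 x hx; omega
    · have := ih2 x hx; omega
  | all i φ ih =>
    intro x hx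
    have h2 := le_pr_right i φ.code
    have h3 : pr i φ.code ≤ (Fm.all i φ).code := le_pr_right _ _
    have := ih x hx; omega
  | allS i φ ih =>
    intro x hx
    have h2 := le_pr_right i φ.code
    have h3 : pr i φ.code ≤ (Fm.allS i φ).code := le_pr_right _ _
    have := ih x hx.1; omega

theorem TAC_sentence (χ : Fm) (h : χ ∈ TAC) : χ.IsSentence := by
  obtain ⟨ψ, _, rfl⟩ := h
  constructor
  · refine Set.eq_empty_iff_forall_notMem.mpr fun x hx => ?_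
    obtain ⟨h1, h2⟩ := cl_fvN _ _ x hx
    have := Fm.fvN_le ψ x h1
    omega
  · refine Set.eq_empty_iff_forall_notMem.mpr fun x hx => ?_
    obtain ⟨h1, h2⟩ := cl_fvS _ _ x hx
    have := Fm.fvS_le ψ x h1
    omega

theorem sat_of_cl (M : Model) (ψ : Fm) (v : ℕ → M.Num) (V : ℕ → Set M.Num)
    (hV : ∀ j, V j ∈ M.sets) (k : ℕ) (h : Sat M v V (cl k ψ)) : Sat M v V ψ := by
  induction k with
  | zero => exact h
  | succ k ih =>
    have h1 : Sat M (update v k (v k)) (update V k (V k)) (cl k ψ) := h (v k) (V k) (hV k)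
    rw [update_eq_self, update_eq_self] at h1
    exact ih h1

theorem holds_cl (M : Model) (ψ : Fm) (h : M.Holds ψ) (k : ℕ) : M.Holds (cl k ψ) := by
  induction k with
  | zero => exact h
  | succ k ih =>
    intro v V hV a A hA
    refine ih _ _ ?_
    intro j
    by_cases hj : j = k
    · subst hj; rw [update_self]; exact hA
    · rw [update_of_ne hj]; exact hV j

theorem TAC_proves (φ : Fm) (h : Sigma11AC0 φ) : Proves TAC φ := by
  intro M hM v V hV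
  exact sat_of_cl M φ v V hV (φ.code + 1) (hM _ ⟨φ, h, rfl⟩ v V hV)

theorem std_ac (φ : Fm) (h : Sigma11AC0 φ) : std.Holds φ := by
  cases h with
  | aca _ h => exact std_aca _ h
  | choice φ n m X Y hφ hmn hYX hY =>
    intro v V hV
    simp only [acAx, Sat_imp, Sat, Sat_exS]
    intro h1
    choose B _ hB using h1
    obtain ⟨Z, hZ⟩ : ∃ Z : Set std.Num, ∀ a b : std.Num, std.pr a b ∈ Z ↔ b ∈ B a := by
      refine ⟨{c : ℕ | ∃ a b : ℕ, c = pr a b ∧ b ∈ (B a : Set ℕ)}, fun a b => ?_⟩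
      constructor
      · rintro ⟨a', b', h3, h4⟩
        have h5 : pr a b = pr a' b' := h3
        obtain ⟨h6, h7⟩ := pr_inj h5
        subst h6; subst h7
        exact h4
      · intro hb
        exact ⟨a, b, rfl, hb⟩
    refine ⟨Z, trivial, fun a => ⟨B a, trivial, ?_, ?_⟩⟩
    · intro b
      rw [Sat_iff]
      have e1 : update (update v n a) m b n = a := by
        rw [update_of_ne (Ne.symm hmn), update_self]
      have e2 : update (update v n a) m b m = b := update_self _ _ _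
      have e3 : update (update V Y Z) X (B a) Y = Z := by
        rw [update_of_ne hYX, update_self]
      have e4 : update (update V Y Z) X (B a) X = B a := update_self _ _ _
      simp only [Sat, Tm.val, val_prT, e1, e2]
      rw [e3, e4]
      exact (hZ a b).symm
    · refine (Sat_congr std φ _ _ _ _ (fun _ _ => rfl) ?_).mp (hB a)
      intro j hj
      have hjY : j ≠ Y := by rintro rfl; exact hY hj
      by_cases hjX : j = X
      · subst hjX; rw [update_self, update_self]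
      · rw [update_of_ne hjX, update_of_ne hjX, update_of_ne hjY]

theorem std_TAC (χ : Fm) (h : χ ∈ TAC) : std.Holds χ := by
  obtain ⟨ψ, hψ, rfl⟩ := h
  exact holds_cl std ψ (std_ac ψ hψ) _

/-! ### Definability of the set of the axioms -/

/-- `n` is the code of a term. -/
def TmC (n : ℕ) : Prop := ∃ t : Tm, t.code = n

theorem TmC_rec (_x n : ℕ) : TmC n ↔ ((∃ i, n = pr 0 i) ∨ n = pr 1 0 ∨ n = pr 2 0 ∨
    (∃ a b, (a < n ∧ b < n) ∧ n = pr 3 (pr a b) ∧ TmC a ∧ TmC b) ∨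
    (∃ a b, (a < n ∧ b < n) ∧ n = pr 4 (pr a b) ∧ TmC a ∧ TmC b)) := by
  constructor
  · rintro ⟨t, rfl⟩
    cases t with
    | var i => exact Or.inl ⟨i, rfl⟩
    | zero => exact Or.inr (Or.inl rfl)
    | one => exact Or.inr (Or.inr (Or.inl rfl))
    | add s t =>
      refine Or.inr (Or.inr (Or.inr (Or.inl ⟨s.code, t.code, ⟨?_, ?_⟩, rfl, ⟨s, rfl⟩, ⟨t, rfl⟩⟩)))
      · exact lt_of_le_of_lt (le_pr_left _ _) (lt_pr_right 3 _ (by norm_num))
      · exact lt_of_le_of_lt (le_pr_right _ _) (lt_pr_right 3 _ (by norm_num))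
    | mul s t =>
      refine Or.inr (Or.inr (Or.inr (Or.inr ⟨s.code, t.code, ⟨?_, ?_⟩, rfl, ⟨s, rfl⟩, ⟨t, rfl⟩⟩)))
      · exact lt_of_le_of_lt (le_pr_left _ _) (lt_pr_right 4 _ (by norm_num))
      · exact lt_of_le_of_lt (le_pr_right _ _) (lt_pr_right 4 _ (by norm_num))
  · rintro (⟨i, rfl⟩ | rfl | rfl | ⟨a, b, _, rfl, ⟨s, rfl⟩, ⟨t, rfl⟩⟩ |
      ⟨a, b, _, rfl, ⟨s, rfl⟩, ⟨t, rfl⟩⟩)
    · exact ⟨.var i, rfl⟩
    · exact ⟨.zero, rfl⟩
    · exact ⟨.one, rfl⟩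
    · exact ⟨.add s t, rfl⟩
    · exact ⟨.mul s t, rfl⟩

theorem TmC_def : DD (fun w => TmC (w 0)) := by
  have h : DD (fun w => (fun _ n => TmC n) (w 0) (w 1)) := by
    refine drec (fun _ n S => (∃ i, n = pr 0 i) ∨ n = pr 1 0 ∨ n = pr 2 0 ∨
      (∃ a b, (a < n ∧ b < n) ∧ n = pr 3 (pr a b) ∧ S a ∧ S b) ∨
      (∃ a b, (a < n ∧ b < n) ∧ n = pr 4 (pr a b) ∧ S a ∧ S b)) TmC_rec ?_ ?_
    · intro x n S S' h
      refine or_congr Iff.rfl (or_congr Iff.rfl (or_congr Iff.rfl (or_congr ?_ ?_)))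
      · refine exists_congr fun a => exists_congr fun b => and_congr_right fun hab => ?_
        rw [h a hab.1, h b hab.2]
      · refine exists_congr fun a => exists_congr fun b => and_congr_right fun hab => ?_
        rw [h a hab.1, h b hab.2]
    · have two : ∀ c : ℕ, DD (fun w => ∃ a b, (a < w 1 ∧ b < w 1) ∧ w 1 = pr c (pr a b) ∧
          Nat.beta (w 2) a = 1 ∧ Nat.beta (w 2) b = 1) := by
        intro c
        refine dc.ex' (S := fun a w => ∃ b, (a < w 1 ∧ b < w 1) ∧ w 1 = pr c (pr a b) ∧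
          Nat.beta (w 2) a = 1 ∧ Nat.beta (w 2) b = 1) ?_
        refine dc.ex' (S := fun b w => (w 0 < w 2 ∧ b < w 2) ∧ w 2 = pr c (pr (w 0) b) ∧
          Nat.beta (w 3) (w 0) = 1 ∧ Nat.beta (w 3) b = 1) ?_
        exact dc.and (dc.and (dc.lt (dc.tvar 1) (dc.tvar 3)) (dc.lt (dc.tvar 0) (dc.tvar 3)))
          (dc.and (dc.eq (dc.tvar 3) (tpr (tconst c) (tpr (dc.tvar 1) (dc.tvar 0))))
            (dc.and (dc.eq (dc.tbeta (dc.tvar 4) (dc.tvar 1)) dc.tone)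
              (dc.eq (dc.tbeta (dc.tvar 4) (dc.tvar 0)) dc.tone)))
      refine dc.or ?_ (dc.or (dc.eq (dc.tvar 1) (tconst _)) (dc.or (dc.eq (dc.tvar 1) (tconst _))
        (dc.or (two 3) (two 4))))
      refine dc.ex' (S := fun i w => w 1 = pr 0 i) ?_
      exact dc.eq (dc.tvar 2) (tpr (tconst 0) (dc.tvar 0))
  exact dc.ren (fun n => match n with | 0 => 0 | _ => 0) h

/-- `n` is the code of an arithmetical formula in which the set variable `j'` is not free, if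
`j = j' + 1`. -/
def RJ (j n : ℕ) : Prop := ∃ φ : Fm, φ.code = n ∧ φ.Arithmetical ∧ ∀ j', j = j' + 1 → j' ∉ φ.fvS

theorem RJ_rec (j n : ℕ) : RJ j n ↔ (
    (∃ a b, n = pr 0 (pr a b) ∧ TmC a ∧ TmC b) ∨
    (∃ a b, n = pr 1 (pr a b) ∧ TmC a ∧ TmC b) ∨
    (∃ a b, n = pr 2 (pr a b) ∧ TmC a ∧ ¬ j = b + 1) ∨
    (∃ a, a < n ∧ n = pr 3 a ∧ RJ j a) ∨
    (∃ a b, (a < n ∧ b < n) ∧ n = pr 4 (pr a b) ∧ RJ j a ∧ RJ j b) ∨
    (∃ a b, b < n ∧ n = pr 5 (pr a b) ∧ RJ j b)) := by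
  constructor
  · rintro ⟨φ, rfl, h1, h2⟩
    cases φ with
    | eq s t => exact Or.inl ⟨s.code, t.code, rfl, ⟨s, rfl⟩, ⟨t, rfl⟩⟩
    | lt s t => exact Or.inr (Or.inl ⟨s.code, t.code, rfl, ⟨s, rfl⟩, ⟨t, rfl⟩⟩)
    | mem t i =>
      exact Or.inr (Or.inr (Or.inl ⟨t.code, i, rfl, ⟨t, rfl⟩, fun h => h2 i h rfl⟩))
    | neg φ =>
      exact Or.inr (Or.inr (Or.inr (Or.inl ⟨φ.code, lt_pr_right 3 _ (by norm_num), rfl,
        φ, rfl, h1, h2⟩)))
    | and φ ψ =>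
      refine Or.inr (Or.inr (Or.inr (Or.inr (Or.inl ⟨φ.code, ψ.code, ⟨?_, ?_⟩, rfl,
        ⟨φ, rfl, h1.1, fun j' hj h => h2 j' hj (Or.inl h)⟩,
        ⟨ψ, rfl, h1.2, fun j' hj h => h2 j' hj (Or.inr h)⟩⟩))))
      · exact lt_of_le_of_lt (le_pr_left _ _) (lt_pr_right 4 _ (by norm_num))
      · exact lt_of_le_of_lt (le_pr_right _ _) (lt_pr_right 4 _ (by norm_num))
    | all i φ =>
      refine Or.inr (Or.inr (Or.inr (Or.inr (Or.inr ⟨i, φ.code, ?_, rfl, φ, rfl, h1, h2⟩))))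
      exact lt_of_le_of_lt (le_pr_right _ _) (lt_pr_right 5 _ (by norm_num))
    | allS i φ => exact h1.elim
  · rintro (⟨a, b, rfl, ⟨s, rfl⟩, ⟨t, rfl⟩⟩ | ⟨a, b, rfl, ⟨s, rfl⟩, ⟨t, rfl⟩⟩ |
      ⟨a, b, rfl, ⟨s, rfl⟩, h⟩ | ⟨a, _, rfl, ⟨φ, rfl, h1, h2⟩⟩ |
      ⟨a, b, _, rfl, ⟨φ, rfl, h1, h2⟩, ⟨ψ, rfl, h3, h4⟩⟩ | ⟨a, b, _, rfl, ⟨φ, rfl, h1, h2⟩⟩)
    · exact ⟨.eq s t, rfl, trivial, fun _ _ h => h.elim⟩
    · exact ⟨.lt s t, rfl, trivial, fun _ _ h => h.elim⟩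
    · refine ⟨.mem s b, rfl, trivial, fun j' hj hh => ?_⟩
      have : j' = b := hh
      subst this
      exact h hj
    · exact ⟨.neg φ, rfl, h1, h2⟩
    · refine ⟨.and φ ψ, rfl, ⟨h1, h3⟩, fun j' hj hh => ?_⟩
      rcases hh with hh | hh
      · exact h2 j' hj hh
      · exact h4 j' hj hh
    · exact ⟨.all a φ, rfl, h1, h2⟩

theorem RJ_def : DD (fun w => RJ (w 0) (w 1)) := by
  refine drec (fun j n S => 
    (∃ a b, n = pr 0 (pr a b) ∧ TmC a ∧ TmC b) ∨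
    (∃ a b, n = pr 1 (pr a b) ∧ TmC a ∧ TmC b) ∨
    (∃ a b, n = pr 2 (pr a b) ∧ TmC a ∧ ¬ j = b + 1) ∨
    (∃ a, a < n ∧ n = pr 3 a ∧ S a) ∨
    (∃ a b, (a < n ∧ b < n) ∧ n = pr 4 (pr a b) ∧ S a ∧ S b) ∨
    (∃ a b, b < n ∧ n = pr 5 (pr a b) ∧ S b)) RJ_rec ?_ ?_
  · intro x n S S' h
    refine or_congr Iff.rfl (or_congr Iff.rfl (or_congr Iff.rfl (or_congr ?_ (or_congr ?_ ?_))))
    · refine exists_congr fun a => and_congr_right fun ha => ?_
      rw [h a ha]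
    · refine exists_congr fun a => exists_congr fun b => and_congr_right fun hab => ?_
      rw [h a hab.1, h b hab.2]
    · refine exists_congr fun a => exists_congr fun b => and_congr_right fun hb => ?_
      rw [h b hb]
  · have tt : ∀ c : ℕ, DD (fun w => ∃ a b, w 1 = pr c (pr a b) ∧ TmC a ∧ TmC b) := by
      intro c
      refine dc.ex' (S := fun a w => ∃ b, w 1 = pr c (pr a b) ∧ TmC a ∧ TmC b) ?_
      refine dc.ex' (S := fun b w => w 2 = pr c (pr (w 0) b) ∧ TmC (w 0) ∧ TmC b) ?_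
      exact dc.and (dc.eq (dc.tvar 3) (tpr (tconst c) (tpr (dc.tvar 1) (dc.tvar 0))))
          (dc.and (dc.app1 TmC_def (dc.tvar 1)) (dc.app1 TmC_def (dc.tvar 0)))
    refine dc.or (tt 0) (dc.or (tt 1) (dc.or ?_ (dc.or ?_ (dc.or ?_ ?_))))
    · refine dc.ex' (S := fun a w => ∃ b, w 1 = pr 2 (pr a b) ∧ TmC a ∧ ¬ w 0 = b + 1) ?_
      refine dc.ex' (S := fun b w => w 2 = pr 2 (pr (w 0) b) ∧ TmC (w 0) ∧ ¬ w 1 = b + 1) ?_
      exact dc.and (dc.eq (dc.tvar 3) (tpr (tconst 2) (tpr (dc.tvar 1) (dc.tvar 0))))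
          (dc.and (dc.app1 TmC_def (dc.tvar 1))
            (dc.not (dc.eq (dc.tvar 2) (dc.tadd (dc.tvar 0) dc.tone))))
    · refine dc.ex' (S := fun a w => a < w 1 ∧ w 1 = pr 3 a ∧ Nat.beta (w 2) a = 1) ?_
      exact dc.and (dc.lt (dc.tvar 0) (dc.tvar 2)) (dc.and
        (dc.eq (dc.tvar 2) (tpr (tconst 3) (dc.tvar 0)))
          (dc.eq (dc.tbeta (dc.tvar 3) (dc.tvar 0)) dc.tone))
    · refine dc.ex' (S := fun a w => ∃ b, (a < w 1 ∧ b < w 1) ∧ w 1 = pr 4 (pr a b) ∧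
          Nat.beta (w 2) a = 1 ∧ Nat.beta (w 2) b = 1) ?_
      refine dc.ex' (S := fun b w => (w 0 < w 2 ∧ b < w 2) ∧ w 2 = pr 4 (pr (w 0) b) ∧
        Nat.beta (w 3) (w 0) = 1 ∧ Nat.beta (w 3) b = 1) ?_
      exact dc.and (dc.and (dc.lt (dc.tvar 1) (dc.tvar 3)) (dc.lt (dc.tvar 0) (dc.tvar 3)))
        (dc.and (dc.eq (dc.tvar 3) (tpr (tconst 4) (tpr (dc.tvar 1) (dc.tvar 0))))
          (dc.and (dc.eq (dc.tbeta (dc.tvar 4) (dc.tvar 1)) dc.tone)
            (dc.eq (dc.tbeta (dc.tvar 4) (dc.tvar 0)) dc.tone)))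
    · refine dc.ex' (S := fun a w => ∃ b, b < w 1 ∧ w 1 = pr 5 (pr a b) ∧
          Nat.beta (w 2) b = 1) ?_
      refine dc.ex' (S := fun b w => b < w 2 ∧ w 2 = pr 5 (pr (w 0) b) ∧
        Nat.beta (w 3) b = 1) ?_
      exact dc.and (dc.lt (dc.tvar 0) (dc.tvar 3))
        (dc.and (dc.eq (dc.tvar 3) (tpr (tconst 5) (tpr (dc.tvar 1) (dc.tvar 0))))
            (dc.eq (dc.tbeta (dc.tvar 4) (dc.tvar 0)) dc.tone))

/-! Codes of compound formulas. -/

def cimp (a b : ℕ) : ℕ := pr 3 (pr 4 (pr a (pr 3 b)))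
def ciff (a b : ℕ) : ℕ := pr 4 (pr (cimp a b) (cimp b a))
def cexS (i a : ℕ) : ℕ := pr 3 (pr 6 (pr i (pr 3 a)))
def call (i a : ℕ) : ℕ := pr 5 (pr i a)
def cprT (s t : ℕ) : ℕ := pr 3 (pr (pr 4 (pr (pr 3 (pr s t)) (pr 3 (pr s t)))) s)
/-- code of a comprehension axiom -/
def ccomp (a i j : ℕ) : ℕ := cexS j (call i (ciff (pr 2 (pr (pr 0 i) j)) a))
/-- code of a choice axiom -/
def cac (a n m X Y : ℕ) : ℕ := cimp (call n (cexS X a)) (cexS Y (call n (cexS X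
    (pr 4 (pr (call m (ciff (pr 2 (pr (pr 0 m) X)) (pr 2 (pr (cprT (pr 0 n) (pr 0 m)) Y)))) a)))))

theorem comp_code (φ : Fm) (i j : ℕ) :
    (Fm.exS j (.all i (.iff (.mem (.var i) j) φ))).code = ccomp φ.code i j := rfl

theorem ac_code (φ : Fm) (n m X Y : ℕ) : (acAx φ n m X Y).code = cac φ.code n m X Y := rfl

theorem tcimp {A B : (ℕ → ℕ) → ℕ} (hA : DT DD A) (hB : DT DD B) :
    DT DD (fun w => cimp (A w) (B w)) :=
  tpr (tconst 3) (tpr (tconst 4) (tpr hA (tpr (tconst 3) hB)))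

theorem tciff {A B : (ℕ → ℕ) → ℕ} (hA : DT DD A) (hB : DT DD B) :
    DT DD (fun w => ciff (A w) (B w)) :=
  tpr (tconst 4) (tpr (tcimp hA hB) (tcimp hB hA))

theorem tcexS {A B : (ℕ → ℕ) → ℕ} (hA : DT DD A) (hB : DT DD B) :
    DT DD (fun w => cexS (A w) (B w)) :=
  tpr (tconst 3) (tpr (tconst 6) (tpr hA (tpr (tconst 3) hB)))

theorem tcall {A B : (ℕ → ℕ) → ℕ} (hA : DT DD A) (hB : DT DD B) :
    DT DD (fun w => call (A w) (B w)) :=
  tpr (tconst 5) (tpr hA hB)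

theorem tcprT {A B : (ℕ → ℕ) → ℕ} (hA : DT DD A) (hB : DT DD B) :
    DT DD (fun w => cprT (A w) (B w)) :=
  tpr (tconst 3) (tpr (tpr (tconst 4) (tpr (tpr (tconst 3) (tpr hA hB))
    (tpr (tconst 3) (tpr hA hB)))) hA)

theorem tccomp {A B C : (ℕ → ℕ) → ℕ} (hA : DT DD A) (hB : DT DD B) (hC : DT DD C) :
    DT DD (fun w => ccomp (A w) (B w) (C w)) :=
  tcexS hC (tcall hB (tciff (tpr (tconst 2) (tpr (tpr (tconst 0) hB) hC)) hA))

theorem tcac {A N M X Y : (ℕ → ℕ) → ℕ} (hA : DT DD A) (hN : DT DD N) (hM : DT DD M)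
    (hX : DT DD X) (hY : DT DD Y) :
    DT DD (fun w => cac (A w) (N w) (M w) (X w) (Y w)) :=
  tcimp (tcall hN (tcexS hX hA)) (tcexS hY (tcall hN (tcexS hX (tpr (tconst 4) (tpr
    (tcall hM (tciff (tpr (tconst 2) (tpr (tpr (tconst 0) hM) hX))
      (tpr (tconst 2) (tpr (tcprT (tpr (tconst 0) hN) (tpr (tconst 0) hM)) hY)))) hA)))))

/-- `n` is the code of an axiom of `Sigma^1_1-AC_0`. -/
def AxC (n : ℕ) : Prop := ∃ ψ, Sigma11AC0 ψ ∧ ψ.code = n

theorem AxC_iff (n : ℕ) : AxC n ↔ (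
    n = (Fm.neg (.eq (.add (.var 0) .one) .zero)).code ∨
    n = (Fm.imp (.eq (.add (.var 0) .one) (.add (.var 1) .one)) (.eq (.var 0) (.var 1))).code ∨
    n = (Fm.eq (.add (.var 0) .zero) (.var 0)).code ∨
    n = (Fm.eq (.add (.var 0) (.add (.var 1) .one)) (.add (.add (.var 0) (.var 1)) .one)).code ∨
    n = (Fm.eq (.mul (.var 0) .zero) .zero).code ∨
    n = (Fm.eq (.mul (.var 0) (.add (.var 1) .one)) (.add (.mul (.var 0) (.var 1)) (.var 0))).code ∨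
    n = (Fm.neg (.lt (.var 0) .zero)).code ∨
    n = (Fm.iff (.lt (.var 0) (.add (.var 1) .one))
      (.or (.lt (.var 0) (.var 1)) (.eq (.var 0) (.var 1)))).code ∨
    n = (Fm.imp (.and (.mem .zero 0)
      (.all 0 (.imp (.mem (.var 0) 0) (.mem (.add (.var 0) .one) 0)))) (.all 0 (.mem (.var 0) 0))).code ∨
    (∃ a i j, RJ (j + 1) a ∧ n = ccomp a i j) ∨
    (∃ a k n' m X Y, (RJ 0 a ∧ (Y = k ∨ RJ (Y + 1) a)) ∧ ¬ m = n' ∧ ¬ Y = X ∧
      n = cac (cexS k a) n' m X Y)) := by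
  constructor
  · rintro ⟨ψ, hψ, rfl⟩
    cases hψ with
    | aca _ h =>
      cases h with
      | succ_ne_zero => exact Or.inl rfl
      | succ_inj => exact Or.inr (Or.inl rfl)
      | add_zero => exact Or.inr (Or.inr (Or.inl rfl))
      | add_succ => exact Or.inr (Or.inr (Or.inr (Or.inl rfl)))
      | mul_zero => exact Or.inr (Or.inr (Or.inr (Or.inr (Or.inl rfl))))
      | mul_succ => exact Or.inr (Or.inr (Or.inr (Or.inr (Or.inr (Or.inl rfl)))))
      | not_lt_zero => exact Or.inr (Or.inr (Or.inr (Or.inr (Or.inr (Or.inr (Or.inl rfl))))))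
      | lt_succ => exact Or.inr (Or.inr (Or.inr (Or.inr (Or.inr (Or.inr (Or.inr (Or.inl rfl)))))))
      | induction =>
        exact Or.inr (Or.inr (Or.inr (Or.inr (Or.inr (Or.inr (Or.inr (Or.inr (Or.inl rfl))))))))
      | comprehension φ i j hφ hj =>
        refine Or.inr (Or.inr (Or.inr (Or.inr (Or.inr (Or.inr (Or.inr (Or.inr (Or.inr (Or.inl
          ⟨φ.code, i, j, ⟨φ, rfl, hφ, ?_⟩, comp_code φ i j⟩)))))))))
        intro j' hj'
        have : j' = j := by omega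
        rw [this]; exact hj
    | choice φ n m X Y hφ hmn hYX hY =>
      obtain ⟨k, θ, rfl, hθ⟩ := hφ
      refine Or.inr (Or.inr (Or.inr (Or.inr (Or.inr (Or.inr (Or.inr (Or.inr (Or.inr (Or.inr
          ⟨θ.code, k, n, m, X, Y, ⟨⟨θ, rfl, hθ, fun j' h => by omega⟩, ?_⟩, hmn, hYX,
            ac_code _ n m X Y⟩)))))))))
      by_cases hk : Y = k
      · exact Or.inl hk
      · refine Or.inr ⟨θ, rfl, hθ, fun j' h hj' => ?_⟩
        have : j' = Y := by omega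
        subst this
        exact hY ⟨hj', hk⟩
  · rintro (rfl | rfl | rfl | rfl | rfl | rfl | rfl | rfl | rfl | ⟨a, i, j, ⟨φ, rfl, h1, h2⟩, rfl⟩ |
      ⟨a, k, n', m, X, Y, ⟨⟨θ, rfl, h1, _⟩, h2⟩, h3, h4, rfl⟩)
    · exact ⟨_, .aca _ .succ_ne_zero, rfl⟩
    · exact ⟨_, .aca _ .succ_inj, rfl⟩
    · exact ⟨_, .aca _ .add_zero, rfl⟩
    · exact ⟨_, .aca _ .add_succ, rfl⟩
    · exact ⟨_, .aca _ .mul_zero, rfl⟩
    · exact ⟨_, .aca _ .mul_succ, rfl⟩
    · exact ⟨_, .aca _ .not_lt_zero, rfl⟩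
    · exact ⟨_, .aca _ .lt_succ, rfl⟩
    · exact ⟨_, .aca _ .induction, rfl⟩
    · exact ⟨_, .aca _ (.comprehension φ i j h1 (h2 j rfl)), comp_code φ i j⟩
    · refine ⟨_, .choice (.exS k θ) n' m X Y ⟨k, θ, rfl, h1⟩ h3 h4 ?_, ac_code _ n' m X Y⟩
      rintro ⟨h5, h6⟩
      rcases h2 with h2 | ⟨θ', h7, h8, h9⟩
      · exact h6 h2
      · have : θ' = θ := Fm.code_inj _ _ h7
        subst this
        exact h9 Y rfl h5

theorem AxC_def : DD (fun w => AxC (w 0)) := by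
  refine dc.iff (fun w => (AxC_iff (w 0)).symm) ?_
  refine dc.or (dc.eq (dc.tvar 0) (tconst _)) (dc.or (dc.eq (dc.tvar 0) (tconst _))
    (dc.or (dc.eq (dc.tvar 0) (tconst _)) (dc.or (dc.eq (dc.tvar 0) (tconst _))
    (dc.or (dc.eq (dc.tvar 0) (tconst _)) (dc.or (dc.eq (dc.tvar 0) (tconst _))
    (dc.or (dc.eq (dc.tvar 0) (tconst _)) (dc.or (dc.eq (dc.tvar 0) (tconst _))
    (dc.or (dc.eq (dc.tvar 0) (tconst _)) (dc.or ?_ ?_)))))))))
  · refine dc.ex' (S := fun a w => ∃ i j, RJ (j + 1) a ∧ w 0 = ccomp a i j) ?_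
    refine dc.ex' (S := fun i w => ∃ j, RJ (j + 1) (w 0) ∧ w 1 = ccomp (w 0) i j) ?_
    refine dc.ex' (S := fun j w => RJ (j + 1) (w 1) ∧ w 2 = ccomp (w 1) (w 0) j) ?_
    exact dc.and (dc.app2 RJ_def (dc.tadd (dc.tvar 0) dc.tone) (dc.tvar 2))
      (dc.eq (dc.tvar 3) (tccomp (dc.tvar 2) (dc.tvar 1) (dc.tvar 0)))
  · refine dc.ex' (S := fun a w => ∃ k n' m X Y, (RJ 0 a ∧ (Y = k ∨ RJ (Y + 1) a)) ∧ ¬ m = n' ∧
      ¬ Y = X ∧ w 0 = cac (cexS k a) n' m X Y) ?_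
    refine dc.ex' (S := fun k w => ∃ n' m X Y, (RJ 0 (w 0) ∧ (Y = k ∨ RJ (Y + 1) (w 0))) ∧
      ¬ m = n' ∧ ¬ Y = X ∧ w 1 = cac (cexS k (w 0)) n' m X Y) ?_
    refine dc.ex' (S := fun n' w => ∃ m X Y, (RJ 0 (w 1) ∧ (Y = w 0 ∨ RJ (Y + 1) (w 1))) ∧
      ¬ m = n' ∧ ¬ Y = X ∧ w 2 = cac (cexS (w 0) (w 1)) n' m X Y) ?_
    refine dc.ex' (S := fun m w => ∃ X Y, (RJ 0 (w 2) ∧ (Y = w 1 ∨ RJ (Y + 1) (w 2))) ∧
      ¬ m = w 0 ∧ ¬ Y = X ∧ w 3 = cac (cexS (w 1) (w 2)) (w 0) m X Y) ?_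
    refine dc.ex' (S := fun X w => ∃ Y, (RJ 0 (w 3) ∧ (Y = w 2 ∨ RJ (Y + 1) (w 3))) ∧
      ¬ w 0 = w 1 ∧ ¬ Y = X ∧ w 4 = cac (cexS (w 2) (w 3)) (w 1) (w 0) X Y) ?_
    refine dc.ex' (S := fun Y w => (RJ 0 (w 4) ∧ (Y = w 3 ∨ RJ (Y + 1) (w 4))) ∧
      ¬ w 1 = w 2 ∧ ¬ Y = w 0 ∧ w 5 = cac (cexS (w 3) (w 4)) (w 2) (w 1) (w 0) Y) ?_
    exact dc.and (dc.and (dc.app2 RJ_def dc.tzero (dc.tvar 5))
        (dc.or (dc.eq (dc.tvar 0) (dc.tvar 4))
          (dc.app2 RJ_def (dc.tadd (dc.tvar 0) dc.tone) (dc.tvar 5))))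
      (dc.and (dc.not (dc.eq (dc.tvar 2) (dc.tvar 3)))
        (dc.and (dc.not (dc.eq (dc.tvar 0) (dc.tvar 1)))
          (dc.eq (dc.tvar 6) (tcac (tcexS (dc.tvar 4) (dc.tvar 5)) (dc.tvar 3) (dc.tvar 2)
            (dc.tvar 1) (dc.tvar 0)))))

/-- The code of the closure. -/
def clc : ℕ → ℕ → ℕ
  | 0, a => a
  | k + 1, a => pr 5 (pr k (pr 6 (pr k (clc k a))))

theorem cl_code (k : ℕ) (ψ : Fm) : (cl k ψ).code = clc k ψ.code := by
  induction k with
  | zero => rfl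
  | succ k ih =>
    simp only [cl, Fm.code, clc, ih]

theorem clc_def : DT DD (fun w => clc (w 0) (w 1)) :=
  trec (g := fun k b => pr 5 (pr k (pr 6 (pr k b))))
    (tpr (tconst 5) (tpr (dc.tvar 0) (tpr (tconst 6) (tpr (dc.tvar 0) (dc.tvar 1)))))
    clc (fun _ => rfl) (fun _ _ => rfl)

/-- The set of the codes of the members of `TAC` and of one more sentence is definable. -/
theorem TAC_def (L : Fm) : DD (fun w => ∃ φ ∈ insert L TAC, φ.code = w 0) := by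
  have key : ∀ n : ℕ, (∃ φ ∈ insert L TAC, φ.code = n) ↔
      (n = L.code ∨ ∃ a, AxC a ∧ n = clc (a + 1) a) := by
    intro n
    constructor
    · rintro ⟨φ, rfl | ⟨ψ, hψ, rfl⟩, rfl⟩
      · exact Or.inl rfl
      · exact Or.inr ⟨ψ.code, ⟨ψ, hψ, rfl⟩, cl_code _ _⟩
    · rintro (rfl | ⟨a, ⟨ψ, hψ, rfl⟩, rfl⟩)
      · exact ⟨L, Or.inl rfl, rfl⟩
      · exact ⟨_, Or.inr ⟨ψ, hψ, rfl⟩, cl_code _ _⟩
  refine dc.iff (fun w => (key (w 0)).symm) ?_
  refine dc.or (dc.eq (dc.tvar 0) (tconst _)) ?_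
  refine dc.ex' (S := fun a w => AxC a ∧ w 0 = clc (a + 1) a) ?_
  refine dc.and (dc.app1 AxC_def (dc.tvar 0)) ?_
  refine dc.app3 (R := fun k a y => y = clc k a) ?_ (dc.tadd (dc.tvar 0) dc.tone) (dc.tvar 0)
    (dc.tvar 1)
  exact dc.ren (fun n => match n with | 0 => 2 | 1 => 0 | _ => 1) clc_def

end Pool.Agent.W697.SOA
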