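import Pool.Agent.H986R3.SOAFinal

set_option autoImplicit false

namespace Pool.Agent.W697.SOA

open Pool.Agent.H986R3.SOA Function

/-- The `Pi^1_1` formula `τ(a)` defines (the set of Goedel numbers of the members of) `T` in the
standard model. -/
def Pi11Defines (τ : Fm) (T : Set Fm) : Prop :=
  τ.IsPi11 ∧ τ.FreeIn {0} ∧
    ∀ n : ℕ, SatN n 0 0 τ ↔ ∃ φ ∈ T, φ.code = n

/-- The arithmetical formula `α(a)` defines (the set of Goedel numbers of the members of) `T` in
the standard model. -/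
def ArithDefines (α : Fm) (T : Set Fm) : Prop :=
  α.Arithmetical ∧ α.FreeIn {0} ∧
    ∀ n : ℕ, SatN n 0 0 α ↔ ∃ φ ∈ T, φ.code = n

/-- `T` proves its own `Pi^1_1`-soundness, for some `Pi^1_1` definition `τ` of `T`. -/
def ProvesOwnSoundnessPi (𝒜 : Arithmetization) (T : Set Fm) : Prop :=
  ∃ τ : Fm, Pi11Defines τ T ∧ Proves T (𝒜.reflection τ)

/-- The sentence saying that every `Pi^1_1` sentence that has a proof without non-logical axioms
is true. -/
def logicReflection (𝒜 : Arithmetization) : Fm :=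
  .all 1 (.all 2 (.imp (.and 𝒜.prf (.and 𝒜.isPi (.all 0 (.neg 𝒜.axIn)))) 𝒜.tr))

/-- The `Pi^1_1` definition: `a` satisfies `α`, and every `Pi^1_1` sentence `y` that has a proof `p`
in which `a` is used, and all whose axioms satisfy `α`, is true. -/
def tauStar (𝒜 : Arithmetization) (α : Fm) (i : ℕ) (θ : Fm) : Fm :=
  .allS i (.and α (.all 1 (.all 2 (.imp
    (.and 𝒜.axIn (.and 𝒜.prf (.and 𝒜.isPi (.all 0 (.imp 𝒜.axIn α))))) θ))))

variable {𝒜 : Arithmetization} {α : Fm} {i : ℕ} {θ : Fm}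

theorem tauStar_pi (hα : α.Arithmetical) (hθ : θ.Arithmetical) : (tauStar 𝒜 α i θ).IsPi11 := by
  refine ⟨i, _, rfl, ?_⟩
  simp only [Fm.Arithmetical, Fm.imp]
  exact ⟨hα, ⟨𝒜.axIn_arith, 𝒜.prf_arith, 𝒜.isPi_arith, 𝒜.axIn_arith, hα⟩, hθ⟩

theorem tauStar_free (hα : α.FreeIn {0}) (hf : θ.fvN ⊆ {2}) (hf' : θ.fvS ⊆ {i}) :
    (tauStar 𝒜 α i θ).FreeIn {0} := by
  constructor
  · intro x hx
    simp only [tauStar, Fm.fvN, Fm.imp, Set.mem_union, Set.mem_sdiff,
      Set.mem_singleton_iff] at hx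
    simp only [Set.mem_singleton_iff]
    have h1 : x ∈ 𝒜.prf.fvN → x ∈ ({1, 2} : Set ℕ) := fun h => 𝒜.prf_free.1 h
    have h2 : x ∈ 𝒜.axIn.fvN → x ∈ ({0, 1} : Set ℕ) := fun h => 𝒜.axIn_free.1 h
    have h3 : x ∈ 𝒜.isPi.fvN → x ∈ ({2} : Set ℕ) := fun h => 𝒜.isPi_free.1 h
    have h4 : x ∈ α.fvN → x ∈ ({0} : Set ℕ) := fun h => hα.1 h
    have h5 : x ∈ θ.fvN → x ∈ ({2} : Set ℕ) := fun h => hf h
    simp only [Set.mem_insert_iff, Set.mem_singleton_iff] at h1 h2 h3 h4 h5
    tauto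
  · refine Set.eq_empty_iff_forall_notMem.mpr fun x hx => ?_
    simp only [tauStar, Fm.fvS, Fm.imp, Set.mem_union, Set.mem_sdiff, 𝒜.prf_free.2,
      𝒜.axIn_free.2, 𝒜.isPi_free.2, hα.2, Set.mem_empty_iff_false, false_or,
      Set.mem_singleton_iff] at hx
    exact hx.2 (hf' hx.1)

theorem Sat_logicReflection (M : Model) (v : ℕ → M.Num) (V : ℕ → Set M.Num) :
    Sat M v V (logicReflection 𝒜) ↔ ∀ p x : M.Num,
      Sat M (asg M.zero p x) (fun _ => ∅) 𝒜.prf → Sat M (asg M.zero M.zero x) (fun _ => ∅) 𝒜.isPi →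
      (∀ a, ¬ Sat M (asg a p M.zero) (fun _ => ∅) 𝒜.axIn) →
      Sat M (asg M.zero M.zero x) (fun _ => ∅) 𝒜.tr := by
  simp only [logicReflection, Sat, Sat_imp]
  refine forall_congr' fun p => forall_congr' fun x => ?_
  rw [Sat_free_asg M 𝒜.prf_free _ (asg M.zero p x) V (fun _ => ∅) (by
      intro j hj; rcases hj with rfl | rfl <;> simp [asg]),
    Sat_free_asg M 𝒜.isPi_free _ (asg M.zero M.zero x) V (fun _ => ∅) (by
      intro j hj; rcases hj with rfl; simp [asg]),
    Sat_free_asg M 𝒜.tr_free _ (asg M.zero M.zero x) V (fun _ => ∅) (by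
      intro j hj; rcases hj with rfl; simp [asg])]
  have h : ∀ a : M.Num, Sat M (update (update (update v 1 p) 2 x) 0 a) V 𝒜.axIn ↔
      Sat M (asg a p M.zero) (fun _ => ∅) 𝒜.axIn := fun a =>
    Sat_free_asg M 𝒜.axIn_free _ (asg a p M.zero) V (fun _ => ∅) (by
      intro j hj; rcases hj with rfl | rfl <;> simp [asg])
  simp only [h]
  tauto

theorem Sat_tauStar (M : Model) (hα : α.FreeIn {0}) (hf : θ.fvN ⊆ {2}) (hf' : θ.fvS ⊆ {i})
    (v : ℕ → M.Num) (V : ℕ → Set M.Num) :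
    Sat M v V (tauStar 𝒜 α i θ) ↔ Sat M (asg (v 0) M.zero M.zero) (fun _ => ∅) α ∧ ∀ p x : M.Num,
      Sat M (asg (v 0) p M.zero) (fun _ => ∅) 𝒜.axIn →
      Sat M (asg M.zero p x) (fun _ => ∅) 𝒜.prf → Sat M (asg M.zero M.zero x) (fun _ => ∅) 𝒜.isPi →
      (∀ a, Sat M (asg a p M.zero) (fun _ => ∅) 𝒜.axIn →
        Sat M (asg a M.zero M.zero) (fun _ => ∅) α) →
      Sat M (asg M.zero M.zero x) (fun _ => ∅) (.allS i θ) := by
  have hs := M.sets_nonempty
  obtain ⟨A₀, hA₀⟩ := hs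
  have key : ∀ A : Set M.Num, Sat M v (update V i A) (.and α (.all 1 (.all 2 (.imp
    (.and 𝒜.axIn (.and 𝒜.prf (.and 𝒜.isPi (.all 0 (.imp 𝒜.axIn α))))) θ)))) ↔
      Sat M (asg (v 0) M.zero M.zero) (fun _ => ∅) α ∧ ∀ p x : M.Num,
      Sat M (asg (v 0) p M.zero) (fun _ => ∅) 𝒜.axIn →
      Sat M (asg M.zero p x) (fun _ => ∅) 𝒜.prf → Sat M (asg M.zero M.zero x) (fun _ => ∅) 𝒜.isPi →
      (∀ a, Sat M (asg a p M.zero) (fun _ => ∅) 𝒜.axIn →
        Sat M (asg a M.zero M.zero) (fun _ => ∅) α) →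
      Sat M (asg M.zero M.zero x) (update (fun _ => ∅) i A) θ := by
    intro A
    simp only [Sat, Sat_imp]
    refine and_congr ?_ (forall_congr' fun p => forall_congr' fun x => ?_)
    · exact Sat_free_asg M hα _ _ _ _ (by intro j hj; rcases hj with rfl; simp [asg])
    · rw [Sat_free_asg M 𝒜.axIn_free _ (asg (v 0) p M.zero) (update V i A) (fun _ => ∅) (by
          intro j hj; rcases hj with rfl | rfl <;> simp [asg]),
        Sat_free_asg M 𝒜.prf_free _ (asg M.zero p x) (update V i A) (fun _ => ∅) (by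
          intro j hj; rcases hj with rfl | rfl <;> simp [asg]),
        Sat_free_asg M 𝒜.isPi_free _ (asg M.zero M.zero x) (update V i A) (fun _ => ∅) (by
          intro j hj; rcases hj with rfl; simp [asg])]
      have h : ∀ a : M.Num, Sat M (update (update (update v 1 p) 2 x) 0 a) (update V i A) 𝒜.axIn ↔
          Sat M (asg a p M.zero) (fun _ => ∅) 𝒜.axIn := fun a =>
        Sat_free_asg M 𝒜.axIn_free _ (asg a p M.zero) _ (fun _ => ∅) (by
          intro j hj; rcases hj with rfl | rfl <;> simp [asg])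
      have h' : ∀ a : M.Num, Sat M (update (update (update v 1 p) 2 x) 0 a) (update V i A) α ↔
          Sat M (asg a M.zero M.zero) (fun _ => ∅) α := fun a =>
        Sat_free_asg M hα _ (asg a M.zero M.zero) _ (fun _ => ∅) (by
          intro j hj; rcases hj with rfl; simp [asg])
      have h'' : Sat M (update (update v 1 p) 2 x) (update V i A) θ ↔
          Sat M (asg M.zero M.zero x) (update (fun _ => ∅) i A) θ := by
        refine Sat_congr M θ _ _ _ _ ?_ ?_
        · intro j hj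
          have := hf hj
          rw [Set.mem_singleton_iff] at this
          subst this
          simp [asg]
        · intro j hj
          have := hf' hj
          rw [Set.mem_singleton_iff] at this
          subst this
          simp
      simp only [h, h', h'']
      tauto
  constructor
  · intro hh
    have hh' : ∀ A ∈ M.sets, Sat M v (update V i A) (.and α (.all 1 (.all 2 (.imp
      (.and 𝒜.axIn (.and 𝒜.prf (.and 𝒜.isPi (.all 0 (.imp 𝒜.axIn α))))) θ)))) := hh
    refine ⟨((key A₀).mp (hh' A₀ hA₀)).1, fun p x h1 h2 h3 h4 A hA => ?_⟩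
    exact ((key A).mp (hh' A hA)).2 p x h1 h2 h3 h4
  · rintro ⟨h1, h2⟩ A hA
    exact (key A).mpr ⟨h1, fun p x h3 h4 h5 h6 => h2 p x h3 h4 h5 h6 A hA⟩

/-- In every structure satisfying the reflection for pure logic, the reflection sentence for
`tauStar` holds. -/
theorem reflection_holds (M : Model) (hα : α.FreeIn {0}) (hf : θ.fvN ⊆ {2}) (hf' : θ.fvS ⊆ {i})
    (htr : 𝒜.tr = .allS i θ) (hL : M.Holds (logicReflection 𝒜)) :
    M.Holds (𝒜.reflection (tauStar 𝒜 α i θ)) := by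
  intro v V hV
  simp only [Arithmetization.reflection, Arithmetization.Pr, Sat, Sat_imp, Sat_ex]
  rintro x ⟨h1, p, h2, h3⟩
  have h1' : Sat M (asg M.zero M.zero x) (fun _ => ∅) 𝒜.isPi :=
    (Sat_free_asg M 𝒜.isPi_free _ _ _ _ (by intro j hj; rcases hj with rfl; simp [asg])).mp h1
  have h2' : Sat M (asg M.zero p x) (fun _ => ∅) 𝒜.prf :=
    (Sat_free_asg M 𝒜.prf_free _ _ _ _ (by
      intro j hj; rcases hj with rfl | rfl <;> simp [asg])).mp h2
  have h3' : ∀ a, Sat M (asg a p M.zero) (fun _ => ∅) 𝒜.axIn →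
      Sat M (asg a M.zero M.zero) (fun _ => ∅) α ∧ ∀ p x : M.Num,
      Sat M (asg a p M.zero) (fun _ => ∅) 𝒜.axIn →
      Sat M (asg M.zero p x) (fun _ => ∅) 𝒜.prf → Sat M (asg M.zero M.zero x) (fun _ => ∅) 𝒜.isPi →
      (∀ a, Sat M (asg a p M.zero) (fun _ => ∅) 𝒜.axIn →
        Sat M (asg a M.zero M.zero) (fun _ => ∅) α) →
      Sat M (asg M.zero M.zero x) (fun _ => ∅) (.allS i θ) := by
    intro a ha
    have h4 := h3 a ((Sat_free_asg M 𝒜.axIn_free _ _ _ _ (by
      intro j hj; rcases hj with rfl | rfl <;> simp [asg])).mpr ha)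
    rw [Sat_tauStar M hα hf hf'] at h4
    simpa using h4
  rw [Sat_free_asg M 𝒜.tr_free _ (asg M.zero M.zero x) V (fun _ => ∅) (by
      intro j hj; rcases hj with rfl; simp [asg])]
  by_cases hex : ∃ a, Sat M (asg a p M.zero) (fun _ => ∅) 𝒜.axIn
  · obtain ⟨a, ha⟩ := hex
    rw [htr]
    exact (h3' a ha).2 p x ha h2' h1' (fun b hb => (h3' b hb).1)
  · push Not at hex
    have hLL := hL v V hV
    rw [Sat_logicReflection] at hLL
    exact hLL p x h2' h1' hex

theorem asg_std (a p x : ℕ) : (asg (A := ℕ) a p x) = (asg (A := std.Num) a p x) := rfl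

theorem std_aca (φ : Fm) (h : ACA0 φ) : std.Holds φ := by
  intro v V hV
  cases h with
  | succ_ne_zero => exact Nat.succ_ne_zero _
  | succ_inj =>
    rw [Sat_imp]
    exact fun h => Nat.succ_injective h
  | add_zero => rfl
  | add_succ => exact (Nat.add_assoc _ _ _).symm
  | mul_zero => exact Nat.mul_zero _
  | mul_succ => exact Nat.mul_succ _ _
  | not_lt_zero => exact Nat.not_lt_zero _
  | lt_succ =>
    rw [Sat_iff, Sat_or]
    exact Nat.lt_succ_iff_lt_or_eq
  | induction =>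
    rw [Sat_imp]
    rintro ⟨h0, hs⟩ a
    have h0' : (0 : ℕ) ∈ (V 0 : Set ℕ) := h0
    have hs' : ∀ n : ℕ, n ∈ (V 0 : Set ℕ) → n + 1 ∈ (V 0 : Set ℕ) := by
      intro n hn
      have h1 := hs n
      rw [Sat_imp] at h1
      have h2 := h1 (show (update v 0 n) 0 ∈ V 0 by rw [update_self]; exact hn)
      have h3 : std.add ((update v 0 n) 0) std.one ∈ V 0 := h2
      rw [update_self] at h3
      exact h3
    have h4 : ∀ n : ℕ, n ∈ (V 0 : Set ℕ) := by
      intro n
      induction n with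
      | zero => exact h0'
      | succ n ih => exact hs' n ih
    have h5 : (update v 0 a) 0 ∈ V 0 := by rw [update_self]; exact h4 a
    exact h5
  | comprehension φ i j hφ hj =>
    rw [Sat_exS]
    refine ⟨{a | Sat std (update v i a) V φ}, trivial, ?_⟩
    intro a
    rw [Sat_iff]
    have h1 : Sat std (update v i a) (update V j {a | Sat std (update v i a) V φ}) φ ↔
        Sat std (update v i a) V φ := by
      refine Sat_congr std φ _ _ _ _ (fun _ _ => rfl) ?_
      intro k hk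
      have : k ≠ j := by rintro rfl; exact hj hk
      rw [update_of_ne this]
    rw [h1]
    simp [Sat, Tm.val]

/-- The truth predicate is correct in the standard model. -/
theorem tr_std (φ : Fm) (hφ : φ.IsPi11Sentence) :
    SatN 0 0 φ.code 𝒜.tr ↔ std.Holds φ := by
  have h := 𝒜.tr_proves φ hφ std (fun ψ hψ => std_aca ψ hψ)
  have h0 := h (asg (A := ℕ) 0 0 φ.code) (fun _ => (∅ : Set ℕ)) (fun _ => trivial)
  rw [Sat_iff] at h0
  simp only [Fm.inst, Sat, Sat_imp, Tm.val, update_self, val_numeral] at h0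
  have e : @Eq ℕ (std.num φ.code) φ.code := std_num _
  constructor
  · intro h1 v V hV
    have h2 : Sat std (asg (A := ℕ) 0 0 φ.code) (fun _ => (∅ : Set ℕ)) φ := by
      rw [← h0]
      intro a ha
      refine (Sat_free_asg std 𝒜.tr_free _ _ _ _ ?_).mp h1
      intro j hj
      rcases hj with rfl
      simp only [update_self]
      rw [ha]
      exact e.symm
    refine (Sat_congr std φ _ _ _ _ ?_ ?_).mp h2
    · intro j hj; rw [hφ.2.1] at hj; exact hj.elim
    · intro j hj; rw [hφ.2.2] at hj; exact hj.elim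
  · intro h1
    have h2 := h0.mpr (h1 _ _ (fun _ => trivial)) (φ.code : ℕ) e.symm
    refine (Sat_free_asg std 𝒜.tr_free _ _ _ _ ?_).mp h2
    intro j hj
    rcases hj with rfl
    simp [asg]

/-- `tauStar` defines `T` in the standard model if `α` does and `T` is `Pi^1_1`-sound. -/
theorem tauStar_defines (T : Set Fm) (hT : ∀ ψ ∈ T, ψ.IsSentence) (hα : ArithDefines α T)
    (hθ : θ.Arithmetical) (hf : θ.fvN ⊆ {2}) (hf' : θ.fvS ⊆ {i})
    (htr : 𝒜.tr = .allS i θ) (hS : Pi11Sound T) :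
    Pi11Defines (tauStar 𝒜 α i θ) T := by
  refine ⟨tauStar_pi hα.1 hθ, tauStar_free hα.2.1 hf hf', fun n => ?_⟩
  rw [← hα.2.2 n]
  unfold SatN
  rw [Sat_tauStar std hα.2.1 hf hf']
  constructor
  · intro h
    exact h.1
  · intro h
    refine ⟨h, fun p x h1 h2 h3 h4 => ?_⟩
    obtain ⟨φ, hφ, rfl⟩ := (𝒜.isPi_std x).mp h3
    rw [← htr]
    refine (tr_std (𝒜 := 𝒜) φ hφ).mpr (hS φ hφ ?_)
    refine (𝒜.prf_correct T hT φ hφ.2).mpr ⟨p, h2, fun a ha => ?_⟩
    exact (hα.2.2 a).mp (h4 a ha)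

/-- Every arithmetically definable `Pi^1_1`-sound theory that proves the reflection for pure logic
proves its own `Pi^1_1`-soundness for some `Pi^1_1` definition. -/
theorem main (𝒜 : Arithmetization) (T : Set Fm) (hT : ∀ ψ ∈ T, ψ.IsSentence)
    (hα : ∃ α, ArithDefines α T) (hS : Pi11Sound T) (hL : Proves T (logicReflection 𝒜)) :
    ProvesOwnSoundnessPi 𝒜 T := by
  obtain ⟨α, hα⟩ := hα
  obtain ⟨i, θ, htr, hθ⟩ := 𝒜.tr_pi
  have hfree := 𝒜.tr_free
  rw [htr] at hfree
  have hf : θ.fvN ⊆ {2} := hfree.1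
  have hf' : θ.fvS ⊆ {i} := by
    have h2 : θ.fvS \ {i} = ∅ := hfree.2
    intro x hx
    by_contra hne
    have : x ∈ θ.fvS \ {i} := ⟨hx, hne⟩
    rw [h2] at this
    exact this
  exact ⟨tauStar 𝒜 α i θ, tauStar_defines T hT hα hθ hf hf' htr hS,
    fun M hM => reflection_holds M hα.2.1 hf hf' htr (hL M hM)⟩

/-- The reflection for pure logic is a sentence. -/
theorem logicReflection_sentence (𝒜 : Arithmetization) : (logicReflection 𝒜).IsSentence := by
  constructor
  · refine Set.eq_empty_iff_forall_notMem.mpr fun x hx => ?_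
    simp only [logicReflection, Fm.fvN, Fm.imp, Set.mem_union, Set.mem_sdiff,
      Set.mem_singleton_iff] at hx
    have h1 : x ∈ 𝒜.prf.fvN → x ∈ ({1, 2} : Set ℕ) := fun h => 𝒜.prf_free.1 h
    have h2 : x ∈ 𝒜.axIn.fvN → x ∈ ({0, 1} : Set ℕ) := fun h => 𝒜.axIn_free.1 h
    have h3 : x ∈ 𝒜.isPi.fvN → x ∈ ({2} : Set ℕ) := fun h => 𝒜.isPi_free.1 h
    have h4 : x ∈ 𝒜.tr.fvN → x ∈ ({2} : Set ℕ) := fun h => 𝒜.tr_free.1 h
    simp only [Set.mem_insert_iff, Set.mem_singleton_iff] at h1 h2 h3 h4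
    tauto
  · refine Set.eq_empty_iff_forall_notMem.mpr fun x hx => ?_
    simp only [logicReflection, Fm.fvS, Fm.imp, Set.mem_union, 𝒜.prf_free.2, 𝒜.axIn_free.2,
      𝒜.isPi_free.2, 𝒜.tr_free.2, Set.mem_empty_iff_false, false_or] at hx

/-- The reflection for pure logic is true. -/
theorem logicReflection_true (𝒜 : Arithmetization) : std.Holds (logicReflection 𝒜) := by
  intro v V hV
  rw [Sat_logicReflection]
  intro p x h1 h2 h3
  obtain ⟨φ, hφ, rfl⟩ := (𝒜.isPi_std x).mp h2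
  refine (tr_std (𝒜 := 𝒜) φ hφ).mpr ?_
  have h4 : Proves ∅ φ := (𝒜.prf_correct ∅ (by simp) φ hφ.2).mpr
    ⟨p, h1, fun a ha => absurd ha (h3 a)⟩
  exact h4 std (by simp)

end Pool.Agent.W697.SOA
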